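import Pool.Agent.K7.H26.SHI.Defs
import Mathlib.Analysis.InnerProductSpace.Positive
import Mathlib.Algebra.Order.Chebyshev

/-!
# Project SHI, job KER (helper18)

The tensor powers of the kernel `ker` dominate the all-ones matrix: `StKer`.
-/

set_option autoImplicit false

open Finset

namespace Pool.Agent.K7.H18.SHI

open Pool.Agent.K7.H26.SHI

/-- If `K - J` is a Gram matrix then all tensor powers of `K` dominate the all-ones matrix. -/
theorem tensor {V : Type} (K : V → V → ℝ) (k : ℕ) (φ : Fin k → V → ℝ)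
    (hK : ∀ p q, K p q = 1 + ∑ l, φ l p * φ l q) (N : ℕ) (Y : Finset (Fin N → V)) :
    (Y.card : ℝ) ^ 2 ≤ ∑ y ∈ Y, ∑ y' ∈ Y, ∏ i, K (y i) (y' i) := by
  classical
  let ψ : Option (Fin k) → V → ℝ := fun o p => o.elim 1 (fun l => φ l p)
  have h1 : ∀ p q, K p q = ∑ o, ψ o p * ψ o q := by
    intro p q
    rw [hK, Fintype.sum_option]
    simp [ψ]
  have h2 : ∀ y y' : Fin N → V, ∏ i, K (y i) (y' i) =
      ∑ f : Fin N → Option (Fin k), (∏ i, ψ (f i) (y i)) * ∏ i, ψ (f i) (y' i) := by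
    intro y y'
    simp only [h1]
    rw [Finset.prod_univ_sum]
    rw [Fintype.piFinset_univ]
    refine Finset.sum_congr rfl fun f _ => ?_
    rw [Finset.prod_mul_distrib]
  have h3 : ∑ y ∈ Y, ∑ y' ∈ Y, ∏ i, K (y i) (y' i) =
      ∑ f : Fin N → Option (Fin k), (∑ y ∈ Y, ∏ i, ψ (f i) (y i)) ^ 2 := by
    simp only [h2, sq, Finset.sum_mul_sum]
    calc ∑ y ∈ Y, ∑ y' ∈ Y, ∑ f : Fin N → Option (Fin k),
          (∏ i, ψ (f i) (y i)) * ∏ i, ψ (f i) (y' i)
        = ∑ y ∈ Y, ∑ f : Fin N → Option (Fin k), ∑ y' ∈ Y,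
          (∏ i, ψ (f i) (y i)) * ∏ i, ψ (f i) (y' i) :=
          Finset.sum_congr rfl fun y _ => Finset.sum_comm
      _ = _ := Finset.sum_comm
  rw [h3]
  have h4 := Finset.single_le_sum (f := fun f : Fin N → Option (Fin k) =>
    (∑ y ∈ Y, ∏ i, ψ (f i) (y i)) ^ 2) (s := Finset.univ) (fun f _ => sq_nonneg _)
    (Finset.mem_univ (fun _ => none))
  refine le_trans (le_of_eq ?_) h4
  simp [ψ]

/-- the quadratic form on five variables -/
theorem five (a b : ℝ) (ha : a = (1077 / 1000) ^ 11) (hb : b = (10295 / 10000) ^ 11)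
    (s0 s1 s2 s3 s4 : ℝ) :
    (s0 + s1 + s2 + s3 + s4) ^ 2 ≤
      a * (s0 ^ 2 + s1 ^ 2 + s2 ^ 2 + s3 ^ 2 + s4 ^ 2) +
      2 * b * (s0 * s2 + s1 * s3 + s2 * s4 + s3 * s0 + s4 * s1) := by
  have g : ∀ x0 x1 x2 x3 x4 : ℝ,
      0 ≤ (x0 - 861 / 1000 * (x1 + x4) + 361 / 1000 * (x2 + x3)) ^ 2 := fun _ _ _ _ _ => sq_nonneg _
  have ha' : (22613 / 10000 : ℝ) ≤ a := by rw [ha]; norm_num
  have hq : 0 ≤ (a - 22613 / 10000) * (s0 ^ 2 + s1 ^ 2 + s2 ^ 2 + s3 ^ 2 + s4 ^ 2) :=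
    mul_nonneg (by linarith) (by positivity)
  have hb1 : (137686 / 100000 : ℝ) ≤ b := by rw [hb]; norm_num
  have hb2 : b ≤ (137687 / 100000 : ℝ) := by rw [hb]; norm_num
  -- the cross terms
  have hc : ∀ x y : ℝ, 2 * (b - 137686 / 100000) * (x * y) ≥
      - ((b - 137686 / 100000) * (x ^ 2 + y ^ 2)) := by
    intro x y
    have := mul_nonneg (sub_nonneg.2 hb1) (sq_nonneg (x + y))
    nlinarith [this]
  have hs : (b - 137686 / 100000) * (s0 ^ 2 + s1 ^ 2 + s2 ^ 2 + s3 ^ 2 + s4 ^ 2) ≤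
      1 / 100000 * (s0 ^ 2 + s1 ^ 2 + s2 ^ 2 + s3 ^ 2 + s4 ^ 2) :=
    mul_le_mul_of_nonneg_right (by linarith) (by positivity)
  have c02 := hc s0 s2
  have c13 := hc s1 s3
  have c24 := hc s2 s4
  have c30 := hc s3 s0
  have c41 := hc s4 s1
  have main : (s0 + s1 + s2 + s3 + s4) ^ 2 ≤
      22613 / 10000 * (s0 ^ 2 + s1 ^ 2 + s2 ^ 2 + s3 ^ 2 + s4 ^ 2) +
      2 * (137686 / 100000) * (s0 * s2 + s1 * s3 + s2 * s4 + s3 * s0 + s4 * s1)
      - 2 / 100000 * (s0 ^ 2 + s1 ^ 2 + s2 ^ 2 + s3 ^ 2 + s4 ^ 2) := by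
    linarith [g s0 s1 s2 s3 s4, g s1 s2 s3 s4 s0, g s2 s3 s4 s0 s1, g s3 s4 s0 s1 s2,
      g s4 s0 s1 s2 s3, sq_nonneg (s0 - s1), sq_nonneg (s1 - s2), sq_nonneg (s2 - s3),
      sq_nonneg (s3 - s4), sq_nonneg (s4 - s0), sq_nonneg (s0 - s2), sq_nonneg (s1 - s3),
      sq_nonneg (s2 - s4), sq_nonneg (s3 - s0), sq_nonneg (s4 - s1), sq_nonneg s0, sq_nonneg s1,
      sq_nonneg s2, sq_nonneg s3, sq_nonneg s4]
  linarith

theorem mm_pos : (0 : ℝ) < (mm : ℝ) := by
  unfold mm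
  positivity

/-- the form of `ker` -/
theorem form (x : Fin 5 × Fin mm → ℝ) :
    (∑ p, x p) ^ 2 ≤ ∑ p, ∑ q, ker p q * (x p * x q) := by
  classical
  set a : ℝ := (1077 / 1000) ^ 11 with ha
  set b : ℝ := (10295 / 10000) ^ 11 with hb
  set s : Fin 5 → ℝ := fun g => ∑ j, x (g, j) with hs
  have hsum : ∑ p, x p = ∑ g, s g := Fintype.sum_prod_type _
  have hin : ∀ g g' : Fin 5, ∑ j, ∑ j', ker (g, j) (g', j') * (x (g, j) * x (g', j')) =
      if g = g' then (mm : ℝ) * a * ∑ j, x (g, j) ^ 2 else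
        if C5.Adj g g' then 0 else b * (s g * s g') := by
    intro g g'
    unfold ker
    split_ifs with h1 h2
    · subst h1
      rw [Finset.mul_sum]
      refine Finset.sum_congr rfl fun j _ => ?_
      rw [Finset.sum_eq_single j]
      · simp [sq, ha]
      · intro j' _ hne
        simp [Ne.symm hne]
      · simp
    · simp
    · have e : s g * s g' = ∑ j, ∑ j', x (g, j) * x (g', j') := by
        simp only [hs, Finset.sum_mul_sum]
      rw [e, Finset.mul_sum]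
      refine Finset.sum_congr rfl fun j _ => ?_
      rw [Finset.mul_sum]
  have hall : ∑ p, ∑ q, ker p q * (x p * x q) = ∑ g, ∑ g', (if g = g' then
      (mm : ℝ) * a * ∑ j, x (g, j) ^ 2 else if C5.Adj g g' then 0 else b * (s g * s g')) := by
    rw [Fintype.sum_prod_type]
    refine Finset.sum_congr rfl fun g _ => ?_
    calc ∑ j, ∑ q, ker (g, j) q * (x (g, j) * x q)
        = ∑ j, ∑ g', ∑ j', ker (g, j) (g', j') * (x (g, j) * x (g', j')) := by
          refine Finset.sum_congr rfl fun j _ => ?_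
          rw [Fintype.sum_prod_type]
      _ = ∑ g', ∑ j, ∑ j', ker (g, j) (g', j') * (x (g, j) * x (g', j')) := Finset.sum_comm
      _ = _ := Finset.sum_congr rfl fun g' _ => hin g g'
  have hcs : ∀ g : Fin 5, a * s g ^ 2 ≤ (mm : ℝ) * a * ∑ j, x (g, j) ^ 2 := by
    intro g
    have h := sq_sum_le_card_mul_sum_sq (s := (Finset.univ : Finset (Fin mm)))
      (f := fun j => x (g, j))
    rw [Finset.card_univ, Fintype.card_fin] at h
    have ha0 : 0 ≤ a := by positivity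
    have := mul_le_mul_of_nonneg_left h ha0
    calc a * s g ^ 2 ≤ a * ((mm : ℝ) * ∑ j, x (g, j) ^ 2) := this
      _ = _ := by ring
  rw [hall, hsum]
  have h5 := five a b ha hb (s 0) (s 1) (s 2) (s 3) (s 4)
  have c0 := hcs 0
  have c1 := hcs 1
  have c2 := hcs 2
  have c3 := hcs 3
  have c4 := hcs 4
  have adj : ∀ g g' : Fin 5, C5.Adj g g' ↔ (g = g' + 1 ∨ g' = g + 1) := by decide
  have hexp : ∑ g, ∑ g', (if g = g' then
      (mm : ℝ) * a * ∑ j, x (g, j) ^ 2 else if C5.Adj g g' then 0 else b * (s g * s g')) =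
      (mm : ℝ) * a * ∑ j, x (0, j) ^ 2 + (mm : ℝ) * a * ∑ j, x (1, j) ^ 2 +
      (mm : ℝ) * a * ∑ j, x (2, j) ^ 2 + (mm : ℝ) * a * ∑ j, x (3, j) ^ 2 +
      (mm : ℝ) * a * ∑ j, x (4, j) ^ 2 +
      2 * b * (s 0 * s 2 + s 1 * s 3 + s 2 * s 4 + s 3 * s 0 + s 4 * s 1) := by
    simp only [adj, Fin.sum_univ_five]
    have e01 : ((0 : Fin 5) = 1) = False := by simp
    norm_num [Fin.ext_iff, Fin.val_add]
    ring
  rw [hexp, Fin.sum_univ_five]
  linarith

theorem ker_symm (p q : Fin 5 × Fin mm) : ker p q = ker q p := by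
  unfold ker
  by_cases h1 : p.1 = q.1
  · by_cases h2 : p.2 = q.2
    · simp [h1, h2]
    · simp [h1, h2, Ne.symm h2]
  · simp only [h1, Ne.symm h1, if_false, C5.adj_comm q.1 p.1]

/-- **Job KER.** -/
theorem stKer : StKer := by
  classical
  intro N Y
  let R : Matrix (Fin 5 × Fin mm) (Fin 5 × Fin mm) ℝ := fun p q => ker p q - 1
  have hR : R.PosSemidef := by
    refine Matrix.PosSemidef.of_dotProduct_mulVec_nonneg ?_ ?_
    · ext p q
      simp [R, Matrix.conjTranspose_apply, ker_symm p q]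
    · intro x
      have h := form x
      have e : star x ⬝ᵥ (Matrix.mulVec R x) =
          ∑ p, ∑ q, ker p q * (x p * x q) - (∑ p, x p) ^ 2 := by
        simp only [dotProduct, Matrix.mulVec, Pi.star_apply, star_trivial, R]
        rw [sq, Finset.sum_mul_sum, ← Finset.sum_sub_distrib]
        refine Finset.sum_congr rfl fun p _ => ?_
        rw [Finset.mul_sum, ← Finset.sum_sub_distrib]
        refine Finset.sum_congr rfl fun q _ => ?_
        ring
      rw [e]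
      linarith
  obtain ⟨k, v, hv⟩ := Matrix.posSemidef_iff_eq_sum_vecMulVec.1 hR
  refine tensor ker k v (fun p q => ?_) N Y
  have h := congrFun (congrFun hv p) q
  simp only [Matrix.sum_apply, Matrix.vecMulVec_apply, star_trivial] at h
  have h' : ker p q - 1 = ∑ l, v l p * v l q := h
  linarith

end Pool.Agent.K7.H18.SHI
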